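import Mathlib
import Pool.Agent.Helper932_RM.FN
import Pool.Agent.Helper932_RM.GI

set_option autoImplicit false
open MeasureTheory ProbabilityTheory Filter Topology
open Pool.Agent.Helper932RM

namespace Pool.Agent.Results.MP_154433_an.HigherOrder

/-- Random sequences with `σ_n ≥ n^{-a}`, `a < 1/b`, and `ℓ ≤ 2b - 1` transformations which are
powers of one invertible measure preserving `S`: almost surely, for all measure preserving systems,
the averages along the random hit times converge in mean to the limit of the standard averages. -/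
theorem result :
  ∀ (σ : ℕ → ℝ), (∀ n, 0 ≤ σ n ∧ σ n ≤ 1) → Antitone σ →
  ∀ b : ℕ, 2 ≤ b → ∀ a : ℝ, a < 1 / b → (∀ᶠ n : ℕ in atTop, (n : ℝ) ^ (-a) ≤ σ n) →
  ∀ (Ω : Type) [MeasurableSpace Ω] (P : Measure Ω) [IsProbabilityMeasure P]
    (E : ℕ → Set Ω), (∀ n, MeasurableSet (E n)) → iIndepSet E P →
    (∀ n, P (E n) = ENNReal.ofReal (σ n)) →
  ∀ᵐ ω ∂P, ∀ (X : Type) [MeasurableSpace X] (μ : Measure X) [IsProbabilityMeasure μ]
    (S : X ≃ᵐ X) (ℓ : ℕ), ℓ + 1 ≤ 2 * b →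
    ∀ (c : Fin ℓ → ℤ) (T : Fin ℓ → X ≃ᵐ X) (f : Fin ℓ → X → ℝ) (g : X → ℝ),
    MeasurePreserving S μ μ →
    (∀ i, (T i).toEquiv = (S.toEquiv : Equiv.Perm X) ^ (c i)) →
    (∀ i, MemLp (f i) ⊤ μ) → MemLp g 2 μ →
    Tendsto (fun N : ℕ => eLpNorm (fun x => (N : ℝ)⁻¹ *
        (∑ n ∈ Finset.Icc 1 N, ∏ i, f i ((⇑(T i))^[n] x)) - g x) 2 μ) atTop (𝓝 0) →
    Tendsto (fun N : ℕ => eLpNorm (fun x => (N : ℝ)⁻¹ *
        (∑ n ∈ Finset.range N, ∏ i, f i ((⇑(T i))^[Nat.nth (fun k => ω ∈ E k) n] x)) - g x) 2 μ)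
      atTop (𝓝 0) := by
  intro σ h01 hanti b hb a ha hlow Ω _ P _ E hE hind hP
  have h0 : ∀ n, 0 ≤ σ n := fun n => (h01 n).1
  have ha1 : a < 1 := by
    have hb2 : (2:ℝ) ≤ b := by exact_mod_cast hb
    have : (1:ℝ) / b ≤ 1 / 2 := one_div_le_one_div_of_le (by norm_num) hb2
    linarith
  have hlog : Tendsto (fun n : ℕ => (n : ℝ) * σ n) atTop atTop := by
    have h1 : Tendsto (fun n : ℕ => (n : ℝ) ^ (1 - a)) atTop atTop :=
      (tendsto_rpow_atTop (by linarith)).comp tendsto_natCast_atTop_atTop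
    refine tendsto_atTop_mono' atTop ?_ h1
    filter_upwards [hlow, eventually_gt_atTop 0] with n hn hn0
    have hn' : (0:ℝ) < n := by exact_mod_cast hn0
    rw [sub_eq_add_neg, Real.rpow_add hn', Real.rpow_one]
    exact mul_le_mul_of_nonneg_left hn hn'.le
  have hW : Tendsto (fun N : ℕ => ∑ n ∈ Finset.range N, σ n) atTop atTop := by
    refine tendsto_atTop_mono' atTop (W_log σ h0 hlog 1 one_pos) ?_
    simp only [one_mul]
    exact Real.tendsto_log_atTop.comp tendsto_natCast_atTop_atTop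
  filter_upwards [winG_ae P E σ h01 hanti hE hind hP b hb a ha hlow] with ω hω
  intro X _ μ _ S ℓ hℓ c T f g hS hT hf hg hces
  have hmp : ∀ i, MeasurePreserving (T i) μ μ := by
    intro i
    have h1 := zp_mp S hS (c i * (1:ℕ))
    have h2 : zp S (c i * (1:ℕ)) = ⇑(T i) := by
      funext x
      rw [← zp_iter (T i) S (c i) (hT i) 1 x]; rfl
    rwa [h2] at h1
  choose f' hf' hff' using fun i => exists_bm (f i) (hf i)
  let φ : ℕ → X → ℝ := fun n x => ∏ i, f' i (zp S (c i * n) x)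
  have hzm : ∀ m : ℤ, Measurable (zp S m) := fun m => (zp_mp S hS m).measurable
  have hφ : ∀ n, BM (φ n) := fun n => BM.prod _ fun i _ => (hf' i).comp (hzm _)
  choose C hC using fun i => (hf' i).2
  have hCφ : ∀ n x, |φ n x| ≤ ∏ i, C i := by
    intro n x
    simp only [φ]
    rw [Finset.abs_prod]
    exact Finset.prod_le_prod (fun i _ => abs_nonneg _) fun i _ => hC i _
  have hae : ∀ᵐ x ∂μ, ∀ n : ℕ, ∏ i, f i ((⇑(T i))^[n] x) = φ n x := by
    rw [ae_all_iff]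
    intro n
    have h1 : ∀ᵐ x ∂μ, ∀ i, f i ((⇑(T i))^[n] x) = f' i ((⇑(T i))^[n] x) := by
      rw [ae_all_iff]
      intro i
      exact ((hmp i).iterate n).quasiMeasurePreserving.ae (hff' i)
    filter_upwards [h1] with x h3
    simp only [φ]
    refine Finset.prod_congr rfl fun i _ => ?_
    rw [h3 i, zp_iter (T i) S (c i) (hT i) n x]
  have hwin : ∀ ε : ℝ, 0 < ε → ∀ᶠ M : ℕ in atTop, ∀ N ∈ Finset.Icc M (2 * M),
      winI E σ μ ω (Finset.Ico M N) φ ≤ ε * (σ M * M) ^ 2 := fun ε hε =>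
    win_allG E σ b ω hω X μ S hS ℓ hℓ c f' hf' ε hε
  have hwin1 : ∀ ε : ℝ, 0 < ε → ∀ᶠ M : ℕ in atTop, ∀ N ∈ Finset.Icc M (2 * M),
      winI E σ μ ω (Finset.Ico M N) (fun _ _ => 1) ≤ ε * (σ M * M) ^ 2 := by
    intro ε hε
    have h1 := win_allG E σ b ω hω X μ S hS 0 (by omega) (fun _ => 0) (fun _ _ => 1)
      (fun i => i.elim0) ε hε
    simpa using h1
  have hces' : Tendsto (fun N : ℕ => eLpNorm (fun x => (N : ℝ)⁻¹ *
          (∑ n ∈ Finset.Icc 1 N, φ n x) - g x) 2 μ) atTop (𝓝 0) := by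
    refine hces.congr fun N => ?_
    refine eLpNorm_congr_ae ?_
    filter_upwards [hae] with x hx
    simp only [hx]
  have hfin := final_gen E σ μ h01 hanti hW ω φ hφ (∏ i, C i) hCφ hwin hwin1 g hg hces'
  refine hfin.congr fun N => ?_
  refine eLpNorm_congr_ae ?_
  filter_upwards [hae] with x hx
  simp only [hx]

end Pool.Agent.Results.MP_154433_an.HigherOrder
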