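import Mathlib
import Pool.Agent.Helper932_RM.Final

set_option autoImplicit false
open MeasureTheory ProbabilityTheory Filter Topology
open Pool.Agent.Helper932RM

namespace Pool.Agent.Results.MP_154433_an.PID

/-- Random non-lacunary sequences, all `ℓ`, full range `n σ_n → ∞`: mean convergence, with the
Cesaro limit, for all commuting `T_i` such that every `T_i` and every `T_i⁻¹ T_j` is ergodic and
all centralizer-invariant pairwise independent self-joinings of order `2ℓ` are independent. -/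
theorem result :
  ∀ (σ : ℕ → ℝ), (∀ n, 0 ≤ σ n ∧ σ n ≤ 1) → Antitone σ →
    Tendsto (fun n : ℕ => (n : ℝ) * σ n) atTop atTop →
  ∀ (Ω : Type) [MeasurableSpace Ω] (P : Measure Ω) [IsProbabilityMeasure P]
    (E : ℕ → Set Ω), (∀ n, MeasurableSet (E n)) → iIndepSet E P →
    (∀ n, P (E n) = ENNReal.ofReal (σ n)) →
  ∀ᵐ ω ∂P, ∀ (X : Type) [MeasurableSpace X] (μ : Measure X) [IsProbabilityMeasure μ]
    (ℓ : ℕ) (T : Fin ℓ → X ≃ᵐ X) (f : Fin ℓ → X → ℝ),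
    (∀ i, MeasurePreserving (⇑(T i)) μ μ) →
    (∀ i j, Function.Commute ⇑(T i) ⇑(T j)) →
    (∀ i, Ergodic (⇑(T i)) μ) →
    (∀ i j, i ≠ j → Ergodic (fun x => (T i).symm (T j x)) μ) →
    (∀ L, Adm μ T L → ∀ g : Fin ℓ × Bool → X → ℝ, (∀ p, BM (g p)) →
      L (fun x => ∏ p, g p (x p)) = ∏ p, ∫ y, g p y ∂μ) →
    (∀ i, MemLp (f i) ⊤ μ) →
      Tendsto (fun N : ℕ => eLpNorm (fun x => (N : ℝ)⁻¹ *
          (∑ n ∈ Finset.range N, ∏ i, f i ((⇑(T i))^[Nat.nth (fun k => ω ∈ E k) n] x))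
          - ∏ i, ∫ y, f i y ∂μ) 2 μ) atTop (𝓝 0) ∧
      Tendsto (fun N : ℕ => eLpNorm (fun x => (N : ℝ)⁻¹ *
          (∑ n ∈ Finset.Icc 1 N, ∏ i, f i ((⇑(T i))^[n] x)) - ∏ i, ∫ y, f i y ∂μ) 2 μ)
        atTop (𝓝 0) := by
  intro σ h01 hanti hlog Ω _ P _ E hE hind hP
  filter_upwards [ae_good σ h01 hanti hlog Ω P E hE hind hP] with ω hω
  intro X _ μ _ ℓ T f hT hcomm herg herg2 hD hf
  refine ⟨core _ hω T hT hcomm herg herg2 hD f hf, ?_⟩
  have h1 := core _ good_succ T hT hcomm herg herg2 hD f hf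
  refine h1.congr fun N => ?_
  congr 1
  funext x
  congr 2
  rw [Finset.range_eq_Ico, Finset.sum_Ico_add' (fun n => ∏ i, f i ((⇑(T i))^[n] x)) 0 N 1]
  rfl

end Pool.Agent.Results.MP_154433_an.PID
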